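import Mathlib

/-!
# MP_df1ab4_co: the cutting distance of even `k`-ary words is unbounded for every `k ≥ 5`

Q1 asks whether every even `k`-ary word can be turned into a shuffle square by at most `k` cuts
and a reordering of the pieces.  We show that this fails for every `k ≥ 5`, and in fact for
`k ≥ 5` no bound depending only on `k` holds: for all large `m` some even word of length `2m` over
`k` letters has cutting distance at least `δ m / log m`.
-/

namespace Pool.Agent.Results.MP_df1ab4_co.Unbounded

/-- A word is *even* if every letter occurs an even number of times. -/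
def IsEven {k : ℕ} (W : List (Fin k)) : Prop := ∀ a : Fin k, Even (W.count a)

/-- A word `W` is a *shuffle square*: its length is `2m` and there are two disjoint sets of
positions of size `m`, listed increasingly by `f` and `g`, whose subwords are equal. -/
def IsShuffleSquare {α : Type} (W : List α) : Prop :=
  ∃ m : ℕ, W.length = 2 * m ∧ ∃ f g : Fin m → Fin W.length,
    StrictMono f ∧ StrictMono g ∧ (∀ i j, f i ≠ g j) ∧ ∀ i, W.get (f i) = W.get (g i)

/-- `W` can be cut by `c` cuts into `c + 1` consecutive blocks (the entries of `L`) which can be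
reordered (to `L'`) so that their concatenation is a shuffle square. -/
def CutReach {α : Type} (c : ℕ) (W : List α) : Prop :=
  ∃ L L' : List (List α), L.length = c + 1 ∧ L.flatten = W ∧ L'.Perm L ∧
    IsShuffleSquare L'.flatten

/-- The *cutting distance* of `W`: the least number of cuts that suffices. -/
noncomputable def cuttingDistance {α : Type} (W : List α) : ℕ := sInf {c | CutReach c W}

/-! ### Monotonicity and existence -/

lemma cutReach_succ {α : Type} {c : ℕ} {W : List α} (h : CutReach c W) : CutReach (c + 1) W := by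
  obtain ⟨L, L', h1, h2, h3, h4⟩ := h
  refine ⟨[] :: L, [] :: L', by simp [h1], by simpa using h2, h3.cons _, ?_⟩
  simpa using h4

lemma cutReach_mono {α : Type} {c d : ℕ} {W : List α} (hcd : c ≤ d) (h : CutReach c W) :
    CutReach d W := by
  induction d, hcd using Nat.le_induction with
  | base => exact h
  | succ d _ ih => exact cutReach_succ ih

lemma isShuffleSquare_append {α : Type} (V : List α) : IsShuffleSquare (V ++ V) := by
  refine ⟨V.length, by simp; ring, fun i => ⟨i, by simp; omega⟩,
    fun i => ⟨V.length + i, by simp⟩, ?_, ?_, ?_, ?_⟩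
  · intro i j h; exact h
  · intro i j h
    have : (i : ℕ) < j := h
    show V.length + (i : ℕ) < V.length + j
    omega
  · intro i j h
    have := congrArg Fin.val h
    simp only at this
    omega
  · intro i
    simp only [List.get_eq_getElem]
    rw [List.getElem_append_left i.2, List.getElem_append_right (by omega)]
    simp

/-- Every even word has a finite cutting distance (cut it into single letters). -/
lemma exists_cutReach {k : ℕ} {W : List (Fin k)} (hW : IsEven W) : ∃ c, CutReach c W := by
  set V : List (Fin k) := (Finset.univ : Finset (Fin k)).toList.flatMap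
    (fun a => List.replicate (W.count a / 2) a) with hV
  have hcount : ∀ b, V.count b = W.count b / 2 := by
    intro b
    rw [hV, List.count_flatMap]
    have h1 : (List.map (List.count b ∘ fun a => List.replicate (W.count a / 2) a)
        (Finset.univ : Finset (Fin k)).toList).sum
        = ∑ a : Fin k, (if a = b then W.count b / 2 else 0) := by
      rw [← Finset.sum_map_toList]
      congr 1
      apply List.map_congr_left
      intro a _
      simp only [Function.comp_apply, List.count_replicate]
      by_cases h : a = b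
      · subst h; simp
      · simp [h]
    rw [h1]
    simp
  have hperm : (V ++ V).Perm W := by
    rw [List.perm_iff_count]
    intro a
    rw [List.count_append, hcount]
    obtain ⟨r, hr⟩ := hW a
    omega
  refine ⟨W.length, [] :: W.map (fun a => [a]), [] :: (V ++ V).map (fun a => [a]), by simp, ?_,
    ?_, ?_⟩
  · simp [← List.flatMap_def]
  · exact (hperm.map _).cons _
  · have : (([] : List (Fin k)) :: (V ++ V).map (fun a => [a])).flatten = V ++ V := by
      rw [List.flatten_cons, ← List.flatMap_def, List.flatMap_singleton', List.nil_append]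
    rw [this]
    exact isShuffleSquare_append V

lemma cutReach_of_cuttingDistance_le {k : ℕ} {W : List (Fin k)} (hW : IsEven W) {c : ℕ}
    (h : cuttingDistance W ≤ c) : CutReach c W :=
  cutReach_mono h (Nat.sInf_mem (exists_cutReach hW))

/-! ### Encoding the words with few cuts -/

/-- The code of a word: lengths of the blocks, the position of each block after the reordering,
the support of the first half of the shuffle square, and the repeated word. -/
abbrev Code (k m c : ℕ) : Type :=
  (Fin (c + 1) → Fin (2 * m + 1)) × (Fin (c + 1) → Fin (c + 1)) × (Fin (2 * m) → Bool) ×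
    (Fin m → Fin k)

/-- `d` is a code of `W`. -/
def Rel {k : ℕ} (m c : ℕ) (W : List (Fin k)) (d : Code k m c) : Prop :=
  ∃ L L' : List (List (Fin k)), L.length = c + 1 ∧ L'.length = c + 1 ∧ L.flatten = W ∧
    L'.flatten.length = 2 * m ∧
    (∀ i : Fin (c + 1), (L'.getD i []).length = d.1 i) ∧
    (∀ i : Fin (c + 1), L.getD i [] = L'.getD (d.2.1 i) []) ∧
    ∃ f g : Fin m → ℕ, StrictMono f ∧ StrictMono g ∧ (∀ i, f i < 2 * m) ∧ (∀ i, g i < 2 * m) ∧
      (∀ i j, f i ≠ g j) ∧ (∀ j : Fin (2 * m), d.2.2.1 j = true ↔ ∃ i, f i = j) ∧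
      (∀ i, L'.flatten[f i]? = some (d.2.2.2 i)) ∧ (∀ i, L'.flatten[g i]? = some (d.2.2.2 i))

lemma range_compl {m : ℕ} {f g : Fin m → ℕ} (hf : StrictMono f) (hg : StrictMono g)
    (hf2 : ∀ i, f i < 2 * m) (hg2 : ∀ i, g i < 2 * m) (hfg : ∀ i j, f i ≠ g j) (j : ℕ)
    (hj : j < 2 * m) : (∃ i, g i = j) ↔ ¬ ∃ i, f i = j := by
  constructor
  · rintro ⟨i, rfl⟩ ⟨i', h⟩
    exact hfg _ _ h
  · intro h
    by_contra hg'
    -- both ranges avoid `j`
    have h1 : (Finset.univ.image f ∪ Finset.univ.image g) ⊆ (Finset.range (2 * m)).erase j := by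
      intro x hx
      rw [Finset.mem_union, Finset.mem_image, Finset.mem_image] at hx
      rw [Finset.mem_erase, Finset.mem_range]
      rcases hx with ⟨i, -, rfl⟩ | ⟨i, -, rfl⟩
      · exact ⟨fun h' => h ⟨i, h'⟩, hf2 i⟩
      · exact ⟨fun h' => hg' ⟨i, h'⟩, hg2 i⟩
    have h2 := Finset.card_le_card h1
    rw [Finset.card_union_of_disjoint, Finset.card_image_of_injective _ hf.injective,
      Finset.card_image_of_injective _ hg.injective, Finset.card_erase_of_mem
        (Finset.mem_range.mpr hj)] at h2
    · simp at h2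
      omega
    · rw [Finset.disjoint_left]
      intro x hx hx'
      rw [Finset.mem_image] at hx hx'
      obtain ⟨i, -, rfl⟩ := hx
      obtain ⟨i', -, h'⟩ := hx'
      exact hfg _ _ h'.symm

lemma rel_inj {k m c : ℕ} {W W' : List (Fin k)} {d : Code k m c} (h : Rel m c W d)
    (h' : Rel m c W' d) : W = W' := by
  obtain ⟨L, L1, hL, hL1, hW, hlen, hd1, hd2, f, g, hf, hg, hf2, hg2, hfg, hb, hvf, hvg⟩ := h
  obtain ⟨K, K1, hK, hK1, hW', hlen', hd1', hd2', f', g', hf', hg', hf2', hg2', hfg', hb', hvf',
    hvg'⟩ := h'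
  have hff : f = f' := by
    rw [← StrictMono.range_inj hf hf']
    ext j
    constructor
    · rintro ⟨i, rfl⟩
      exact (hb' ⟨f i, hf2 i⟩).mp ((hb ⟨f i, hf2 i⟩).mpr ⟨i, rfl⟩)
    · rintro ⟨i, rfl⟩
      exact (hb ⟨f' i, hf2' i⟩).mp ((hb' ⟨f' i, hf2' i⟩).mpr ⟨i, rfl⟩)
  subst hff
  have hgg : g = g' := by
    rw [← StrictMono.range_inj hg hg']
    ext j
    constructor
    · rintro ⟨i, rfl⟩
      exact (range_compl hf hg' hf2 hg2' hfg' _ (hg2 i)).mpr
        ((range_compl hf hg hf2 hg2 hfg _ (hg2 i)).mp ⟨i, rfl⟩)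
    · rintro ⟨i, rfl⟩
      exact (range_compl hf hg hf2 hg2 hfg _ (hg2' i)).mpr
        ((range_compl hf hg' hf2 hg2' hfg' _ (hg2' i)).mp ⟨i, rfl⟩)
  subst hgg
  have hflat : L1.flatten = K1.flatten := by
    apply List.ext_getElem?
    intro j
    by_cases hj : j < 2 * m
    · by_cases hj' : ∃ i, f i = j
      · obtain ⟨i, rfl⟩ := hj'
        rw [hvf, hvf']
      · obtain ⟨i, rfl⟩ := (range_compl hf hg hf2 hg2 hfg j hj).mpr hj'
        rw [hvg, hvg']
    · rw [List.getElem?_eq_none (by omega), List.getElem?_eq_none (by omega)]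
  have hLK1 : L1 = K1 := by
    rw [List.eq_iff_flatten_eq]
    refine ⟨hflat, ?_⟩
    apply List.ext_getElem (by simp [hL1, hK1])
    intro i h1 h2
    simp only [List.length_map] at h1 h2
    have e1 := hd1 ⟨i, by omega⟩
    have e2 := hd1' ⟨i, by omega⟩
    rw [List.getD_eq_getElem _ _ (by simpa using h1)] at e1
    rw [List.getD_eq_getElem _ _ (by simpa using h2)] at e2
    simp only [List.getElem_map]
    simp only at e1 e2
    omega
  subst hLK1
  have hLK : L = K := by
    apply List.ext_getElem (by omega)
    intro i h1 h2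
    have e1 := hd2 ⟨i, by omega⟩
    have e2 := hd2' ⟨i, by omega⟩
    rw [List.getD_eq_getElem _ _ (by simpa using h1)] at e1
    rw [List.getD_eq_getElem _ _ (by simpa using h2)] at e2
    simp only at e1 e2
    rw [e1, e2]
  rw [← hW, ← hW', hLK]

lemma exists_rel {k m c : ℕ} {W : List (Fin k)} (hlen : W.length = 2 * m)
    (h : CutReach c W) : ∃ d : Code k m c, Rel m c W d := by
  obtain ⟨L, L', hL, hW, hperm, m', hm', f, g, hf, hg, hfg, heq⟩ := h
  have hlen' : L'.flatten.length = 2 * m := by
    rw [hperm.flatten.length_eq, hW, hlen]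
  have hmm : m' = m := by omega
  subst hmm
  have hL' : L'.length = c + 1 := by rw [hperm.length_eq, hL]
  have hbl : ∀ i : Fin (c + 1), (L'.getD i []).length < 2 * m' + 1 := by
    intro i
    rw [List.getD_eq_getElem _ _ (by omega)]
    have h1 := (List.sublist_flatten_of_mem (List.getElem_mem (l := L') (n := (i : ℕ))
      (by omega))).length_le
    omega
  have hpos : ∀ i : Fin (c + 1), ∃ j : Fin (c + 1), L.getD i [] = L'.getD j [] := by
    intro i
    have h1 : L.getD i [] ∈ L := by
      rw [List.getD_eq_getElem _ _ (by omega)]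
      exact List.getElem_mem _
    rw [← hperm.mem_iff] at h1
    obtain ⟨j, hj, he⟩ := List.getElem_of_mem h1
    refine ⟨⟨j, by omega⟩, ?_⟩
    rw [← he]
    exact (List.getD_eq_getElem _ _ hj).symm
  choose p hp using hpos
  classical
  refine ⟨⟨fun i => ⟨(L'.getD i []).length, hbl i⟩, p, fun j => decide (∃ i, (f i : ℕ) = j),
    fun i => L'.flatten.get (f i)⟩, L, L', hL, hL', hW, hlen', fun i => rfl, hp,
    fun i => f i, fun i => g i, ?_, ?_, ?_, ?_, ?_, ?_, ?_, ?_⟩
  · intro i j h; exact hf h
  · intro i j h; exact hg h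
  · intro i; have := (f i).2; show (f i : ℕ) < _; omega
  · intro i; have := (g i).2; show (g i : ℕ) < _; omega
  · intro i j h; exact hfg i j (Fin.ext h)
  · intro j; simp
  · intro i; simp
  · intro i
    show L'.flatten[(g i : ℕ)]? = some (L'.flatten.get (f i))
    rw [heq i]; simp

/-! ### Many even words -/

/-- The letters occurring an odd number of times. -/
def oddLetters {k : ℕ} (u : List (Fin k)) : Finset (Fin k) :=
  Finset.univ.filter (fun a => Odd (u.count a))

/-- The correction making `u` even. -/
noncomputable def corr {k : ℕ} (z : Fin k) (u : List (Fin k)) : List (Fin k) :=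
  (oddLetters u).toList ++ List.replicate (k - (oddLetters u).card) z

lemma card_odd_le {k : ℕ} (u : List (Fin k)) : (oddLetters u).card ≤ k := by
  simpa using Finset.card_le_univ (oddLetters u)

lemma length_corr {k : ℕ} (z : Fin k) (u : List (Fin k)) : (corr z u).length = k := by
  have := card_odd_le u
  simp [corr]
  omega

lemma odd_length {k : ℕ} (u : List (Fin k)) : Odd u.length ↔ Odd (oddLetters u).card := by
  have h : ∑ a : Fin k, u.count a = u.length := by
    have := Multiset.sum_count_eq_card (s := (Finset.univ : Finset (Fin k)))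
      (m := (u : Multiset (Fin k))) (by simp)
    simpa using this
  rw [← h, Finset.odd_sum_iff_odd_card_odd]
  rfl

lemma isEven_corr {k : ℕ} (z : Fin k) (u : List (Fin k)) (h : Even (u.length + k)) :
    IsEven (u ++ corr z u) := by
  intro a
  have h1 : (corr z u).count a = (if Odd (u.count a) then 1 else 0) +
      (if z = a then k - (oddLetters u).card else 0) := by
    rw [corr, List.count_append]
    congr 1
    · by_cases ha : Odd (u.count a)
      · rw [if_pos ha]
        apply List.count_eq_one_of_mem (Finset.nodup_toList _)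
        simp [oddLetters, ha]
      · rw [if_neg ha]
        apply List.count_eq_zero_of_not_mem
        simp only [Finset.mem_toList, oddLetters, Finset.mem_filter, Finset.mem_univ, true_and]
        exact ha
    · rw [List.count_replicate]
      by_cases hz : z = a
      · simp [hz]
      · simp [hz]
  have h2 : Even (k - (oddLetters u).card) := by
    have h3 := odd_length u
    have h4 := card_odd_le u
    rw [Nat.even_sub h4]
    rcases Nat.even_or_odd u.length with h5 | h5
    · have h6 : Even k := by
        rw [Nat.even_add] at h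
        exact h.mp h5
      have h7 : ¬ Odd (oddLetters u).card := fun hh => (Nat.not_odd_iff_even.mpr h5) (h3.mpr hh)
      rw [Nat.not_odd_iff_even] at h7
      simp [h6, h7]
    · have h6 : ¬ Even k := by
        intro hk
        rw [Nat.even_add] at h
        exact (Nat.not_even_iff_odd.mpr h5) (h.mpr hk)
      have h7 : Odd (oddLetters u).card := h3.mp h5
      have h8 : ¬ Even (oddLetters u).card := Nat.not_even_iff_odd.mpr h7
      simp [h6, h8]
  rw [List.count_append, h1, ← add_assoc]
  apply Even.add
  · by_cases ha : Odd (u.count a)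
    · rw [if_pos ha]; exact ha.add_one
    · rw [if_neg ha]; simpa using (Nat.not_odd_iff_even.mp ha)
  · by_cases hz : z = a
    · rw [if_pos hz]; exact h2
    · rw [if_neg hz]; exact Even.zero

/-- If all even words of length `2m` can be handled with `c` cuts, then there are few words. -/
lemma counting {k m c : ℕ} (hk : 0 < k) (hkm : k ≤ 2 * m)
    (hall : ∀ W : List (Fin k), W.length = 2 * m → IsEven W → CutReach c W) :
    k ^ (2 * m - k) ≤ (2 * m + 1) ^ (c + 1) * ((c + 1) ^ (c + 1) * (2 ^ (2 * m) * k ^ m)) := by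
  set z : Fin k := ⟨0, hk⟩
  have key : ∀ u : Fin (2 * m - k) → Fin k,
      ∃ d : Code k m c, Rel m c (List.ofFn u ++ corr z (List.ofFn u)) d := by
    intro u
    have hl : (List.ofFn u ++ corr z (List.ofFn u)).length = 2 * m := by
      rw [List.length_append, length_corr, List.length_ofFn]; omega
    apply exists_rel hl
    apply hall _ hl
    apply isEven_corr
    rw [List.length_ofFn]
    exact ⟨m, by omega⟩
  choose F hF using key
  have hinj : Function.Injective F := by
    intro u v huv
    have h1 := hF u
    have h2 := hF v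
    rw [← huv] at h2
    have h3 := rel_inj h1 h2
    have h4 := (List.append_inj h3 (by simp)).1
    exact List.ofFn_injective h4
  have hcard := Fintype.card_le_of_injective F hinj
  simpa [Code, Fintype.card_prod, Fintype.card_fun] using hcard

/-! ### The lower bound -/

lemma log_small {ε : ℝ} (hε : 0 < ε) : ∃ M : ℕ, ∀ m : ℕ, M ≤ m → Real.log m ≤ ε * m := by
  have h1 := (Real.isLittleO_log_id_atTop).def hε
  have h2 := tendsto_natCast_atTop_atTop (R := ℝ) |>.eventually h1
  rw [Filter.eventually_atTop] at h2
  obtain ⟨M, hM⟩ := h2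
  refine ⟨max M 1, fun m hm => ?_⟩
  have h3 := hM m (le_trans (le_max_left _ _) hm)
  simp only [Real.norm_eq_abs, id_eq, Nat.abs_cast] at h3
  exact le_trans (le_abs_self _) h3

lemma quant (k : ℕ) (hk : 5 ≤ k) : ∃ δ : ℝ, 0 < δ ∧ ∃ M : ℕ, 3 ≤ M ∧ ∀ m : ℕ, M ≤ m →
    ∃ W : List (Fin k), W.length = 2 * m ∧ IsEven W ∧
      δ * m / Real.log m ≤ cuttingDistance W := by
  have hk' : (5 : ℝ) ≤ k := by exact_mod_cast hk
  set β : ℝ := Real.log k - Real.log 4 with hβ
  have hβ0 : 0 < β := by
    rw [hβ, sub_pos]
    exact Real.log_lt_log (by norm_num) (by linarith)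
  set δ : ℝ := β / 16 with hδ
  have hδ0 : 0 < δ := by positivity
  obtain ⟨M1, hM1⟩ := log_small (ε := β / 16) (by positivity)
  obtain ⟨M2, hM2⟩ := exists_nat_gt (2 * (k * Real.log k) / β)
  obtain ⟨M3, hM3⟩ := exists_nat_gt (Real.exp δ)
  refine ⟨δ, hδ0, max (max M1 M2) (max M3 (max 3 k)), by simp, fun m hm => ?_⟩
  have hm1 : M1 ≤ m := le_trans (le_trans (le_max_left _ _) (le_max_left _ _)) hm
  have hm2 : M2 ≤ m := le_trans (le_trans (le_max_right _ _) (le_max_left _ _)) hm
  have hm3 : M3 ≤ m := le_trans (le_trans (le_max_left _ _) (le_max_right _ _)) hm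
  have hm4 : 3 ≤ m := le_trans (le_trans (le_trans (le_max_left _ _) (le_max_right _ _))
    (le_max_right _ _)) hm
  have hm5 : k ≤ m := le_trans (le_trans (le_trans (le_max_right _ _) (le_max_right _ _))
    (le_max_right _ _)) hm
  have hm4' : (3 : ℝ) ≤ m := by exact_mod_cast hm4
  have hm0 : (0 : ℝ) < m := by linarith
  by_contra hcon
  push Not at hcon
  have hlog : δ < Real.log m := by
    rw [Real.lt_log_iff_exp_lt hm0]
    have : (M3 : ℝ) ≤ m := by exact_mod_cast hm3
    linarith
  have hlogpos : 0 < Real.log m := by linarith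
  set c : ℕ := ⌊δ * m / Real.log m⌋₊ with hc
  have hx0 : 0 ≤ δ * m / Real.log m := by positivity
  have hcle : (c : ℝ) ≤ δ * m / Real.log m := Nat.floor_le hx0
  have hcm : (c : ℝ) ≤ m := by
    refine hcle.trans ?_
    rw [div_le_iff₀ hlogpos]
    nlinarith
  have hcm' : c ≤ m := by exact_mod_cast hcm
  have hcount := counting (k := k) (m := m) (c := c) (by omega) (by omega) (by
    intro W hl hW
    apply cutReach_of_cuttingDistance_le hW
    rw [hc]
    apply Nat.le_floor
    exact (hcon W hl hW).le)
  -- take logarithms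
  have h1 : k ^ (2 * m - k) ≤ (2 * m + 1) ^ (2 * (c + 1)) * (4 ^ m * k ^ m) := by
    refine hcount.trans ?_
    have e1 : (c + 1) ^ (c + 1) ≤ (2 * m + 1) ^ (c + 1) := Nat.pow_le_pow_left (by omega) _
    have e2 : (2 : ℕ) ^ (2 * m) = 4 ^ m := by rw [pow_mul]; norm_num
    rw [e2]
    calc (2 * m + 1) ^ (c + 1) * ((c + 1) ^ (c + 1) * (4 ^ m * k ^ m))
        ≤ (2 * m + 1) ^ (c + 1) * ((2 * m + 1) ^ (c + 1) * (4 ^ m * k ^ m)) := by gcongr
      _ = (2 * m + 1) ^ (2 * (c + 1)) * (4 ^ m * k ^ m) := by ring
  have h2 : ((k : ℝ)) ^ (2 * m - k) ≤ (2 * m + 1) ^ (2 * (c + 1)) * (4 ^ m * k ^ m) := by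
    exact_mod_cast h1
  have hk0 : (0 : ℝ) < k := by linarith
  have h3 := Real.log_le_log (by positivity) h2
  rw [Real.log_pow, Real.log_mul (by positivity) (by positivity), Real.log_mul (by positivity)
    (by positivity), Real.log_pow, Real.log_pow, Real.log_pow] at h3
  have e3 : ((2 * m - k : ℕ) : ℝ) = 2 * m - k := by
    rw [Nat.cast_sub (by omega)]; push_cast; ring
  rw [e3] at h3
  push_cast at h3
  have h4 : Real.log (2 * m + 1) ≤ 2 * Real.log m := by
    have : Real.log ((m : ℝ) ^ 2) = 2 * Real.log m := by rw [Real.log_pow]; norm_num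
    rw [← this]
    apply Real.log_le_log (by positivity)
    nlinarith
  have h5 : 0 ≤ Real.log (2 * m + 1) := Real.log_nonneg (by linarith)
  have h6 : ((c : ℝ) + 1) * Real.log m ≤ δ * m + Real.log m := by
    have : (c : ℝ) * Real.log m ≤ δ * m := by
      rw [← le_div_iff₀ hlogpos]; exact hcle
    linarith
  have h7 : 2 * ((c : ℝ) + 1) * Real.log (2 * m + 1) ≤ 4 * (δ * m + Real.log m) := by
    have hc0 : (0 : ℝ) ≤ (c : ℝ) + 1 := by positivity
    nlinarith [mul_le_mul_of_nonneg_left h4 hc0]
  have h8 : Real.log m ≤ β / 16 * m := hM1 m hm1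
  have h9 : k * Real.log k < β / 2 * m := by
    have : (M2 : ℝ) ≤ m := by exact_mod_cast hm2
    have h10 : 2 * (k * Real.log k) / β < m := lt_of_lt_of_le hM2 this
    rw [div_lt_iff₀ hβ0] at h10
    linarith
  have h11 : (m : ℝ) * β ≤ k * Real.log k + 4 * (δ * m + Real.log m) := by
    rw [hβ]; nlinarith
  rw [hδ] at h11
  nlinarith

/-- **Main result.**  For every `k ≥ 5` the cutting distance of even `k`-ary words is unbounded
(in particular it is larger than `k` for some word, so Q1 fails for every `k ≥ 5`); moreover for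
every `k ≥ 5` there is `δ > 0` such that for all large `m` some even `k`-ary word of length `2m`
has cutting distance at least `δ m / log m`. -/
theorem result (k : ℕ) (hk : 5 ≤ k) :
    (∀ C : ℕ, ∃ W : List (Fin k), IsEven W ∧ C < cuttingDistance W) ∧
    ∃ δ : ℝ, 0 < δ ∧ ∃ M : ℕ, ∀ m : ℕ, M ≤ m → ∃ W : List (Fin k), W.length = 2 * m ∧
      IsEven W ∧ δ * m / Real.log m ≤ cuttingDistance W := by
  obtain ⟨δ, hδ, M, hM3, hM⟩ := quant k hk
  refine ⟨fun C => ?_, δ, hδ, M, hM⟩
  obtain ⟨M', hM'⟩ := log_small (ε := δ / (C + 1)) (by positivity)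
  obtain ⟨W, -, hW, hd⟩ := hM (max M M') (le_max_left _ _)
  refine ⟨W, hW, ?_⟩
  have h1 := hM' (max M M') (le_max_right _ _)
  set m := max M M'
  have hm3 : (3 : ℝ) ≤ m := by
    have : 3 ≤ m := le_trans hM3 (le_max_left _ _)
    exact_mod_cast this
  have hlog : 0 < Real.log m := Real.log_pos (by linarith)
  have h2 : (C : ℝ) + 1 ≤ δ * m / Real.log m := by
    rw [le_div_iff₀ hlog]
    have : ((C : ℝ) + 1) * (δ / (C + 1) * m) = δ * m := by field_simp
    rw [← this]
    exact mul_le_mul_of_nonneg_left h1 (by positivity)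
  have h3 : (C : ℝ) + 1 ≤ cuttingDistance W := h2.trans hd
  have h4 : C + 1 ≤ cuttingDistance W := by exact_mod_cast h3
  omega

end Pool.Agent.Results.MP_df1ab4_co.Unbounded
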